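import Pool.Agent.Mg.F9c0351q.Gaa26ea

/- For a set of `n` of density one the Galois group of `S_n` has the order of the full
hyperoctahedral group. -/

open Filter Polynomial

namespace Pool.Agent.Results.MP_9c0351_nt.GaloisGroup

theorem result : Tendsto (fun N : ℕ => (Set.ncard {n : ℕ | 1 ≤ n ∧ n ≤ N ∧
    Nat.card (C ((n : ℚ) - 1) * (X ^ (n + 1) - 1) - C ((n : ℚ) + 1) * (X ^ n - X) : ℚ[X]).Gal =
      2 ^ ((n - 2) / 2) * ((n - 2) / 2).factorial} : ℝ) / N) atTop (nhds 1) :=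
  Pool.Agent.MP_9c0351_nt.Gal.dens_Main Pool.Agent.MP_9c0351_nt.Gal.den_ok _
    Pool.Agent.MP_9c0351_nt.Gal.card_ok

end Pool.Agent.Results.MP_9c0351_nt.GaloisGroup
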