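import Mathlib
import Pool.Agent.Mg.F9c0351p.Ga9369b

namespace Pool.Agent.Results.MP_9c0351_nt.ReducedS

open Polynomial

/-- For every `n ≥ 4` the quotient of `S_n` by `(x-1)^3 (x+1)` (odd `n`) or by `(x-1)^3`
(even `n`) is irreducible over the rationals. -/
theorem result (n : ℕ) (hn : 4 ≤ n) : ∃ f : ℚ[X],
    C ((n : ℚ) - 1) * (X ^ (n + 1) - 1) - C ((n : ℚ) + 1) * (X ^ n - X) =
      (if Odd n then (X - 1) ^ 3 * (X + 1) else (X - 1) ^ 3) * f ∧ Irreducible f :=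
  Pool.Agent.MP_9c0351_nt.irreducible_reduced n hn

end Pool.Agent.Results.MP_9c0351_nt.ReducedS
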